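import Pool.Agent.L7h3.SC.Stm

/-! Project SC, part KEY. -/

set_option autoImplicit false

namespace Pool.Agent.L7h36.SC

open Pool.Agent.L7h3.SC

theorem copy_injective {E : Type} [NormedAddCommGroup E] {x p : ℕ → E} (hx : Function.Injective x)
    (hp : Copy x p) : Function.Injective p := by
  intro i j hij
  have h := hp i j
  rw [hij, dist_self] at h
  exact hx (dist_eq_zero.1 h.symm)

theorem s_KEY (hPB : S_PB) : S_KEY := by
  intro E _ x hx hc
  have h1 : ∀ F ∈ {F | ∃ p, Copy x p ∧ F = Set.range p}, F.Infinite ∧ F.Countable := by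
    rintro F ⟨p, hp, rfl⟩
    exact ⟨Set.infinite_range_of_injective (copy_injective hx hp), Set.countable_range p⟩
  have h2 : ∀ K : Finset E, K.card = 3 →
      {F | F ∈ {F | ∃ p, Copy x p ∧ F = Set.range p} ∧ (K : Set E) ⊆ F}.Countable := by
    intro K hK
    have g : Fin 3 ≃ K := (Finset.equivFinOfCardEq hK).symm
    have hcard : ∀ m : {m : Fin 3 → ℕ // Function.Injective m},
        (Finset.univ.image m.1).card = 3 := by
      intro m
      rw [Finset.card_image_of_injective _ m.2]
      simp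
    refine (Set.countable_iUnion (fun m : {m : Fin 3 → ℕ // Function.Injective m} =>
      (hc (Finset.univ.image m.1) (Function.extend m.1 (fun i => (g i : E)) 0)
        (hcard m)).image Set.range)).mono ?_
    rintro F ⟨⟨p, hp, rfl⟩, hKF⟩
    choose m hm using fun i : Fin 3 => hKF (g i).2
    have hinj : Function.Injective m := by
      intro i j hij
      have : (g i : E) = g j := by rw [← hm i, ← hm j, hij]
      exact g.injective (Subtype.ext this)
    refine Set.mem_iUnion.2 ⟨⟨m, hinj⟩, p, ⟨hp, fun i hi => ?_⟩, rfl⟩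
    obtain ⟨a, _, rfl⟩ := Finset.mem_image.1 hi
    rw [hinj.extend_apply]
    exact hm a
  obtain ⟨c, hcol⟩ := hPB E {F | ∃ p, Copy x p ∧ F = Set.range p} 3 h1 h2
  refine ⟨c, fun p hp => ?_⟩
  obtain ⟨_, ⟨i, rfl⟩, _, ⟨j, rfl⟩, h⟩ := hcol (Set.range p) ⟨p, hp, rfl⟩
  exact ⟨i, j, h⟩

end Pool.Agent.L7h36.SC
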